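import Pool.Agent.helper70.RK.Spec

/-!
# rk:BFI
-/

set_option autoImplicit false

namespace RK

open QS (Lef EAb)
open LEQ (Stb Nz XS Ls Mb FS mem_FS)

theorem BFI_card {G : Type} [Group G] [Finite G] {p : ℕ} (hp : p.Prime) {E : Subgroup G} (hE : EAb p E)
    (h : ¬ Nat.card E ≤ p ^ 1) : p ^ 2 ≤ Nat.card E := by
  haveI := Fact.mk hp
  have hP : IsPGroup p E := fun x => ⟨1, by
    have := hE.2 x.1 x.2
    ext
    simpa using this⟩
  obtain ⟨k, hk⟩ := IsPGroup.iff_card.1 hP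
  rw [hk] at h ⊢
  have h1 : 2 ≤ k := by
    by_contra h2
    exact h (Nat.pow_le_pow_right hp.pos (by omega))
  exact Nat.pow_le_pow_right hp.pos h1

theorem BFI_prod {G : Type} [Group G] [Finite G] {p : ℕ} {E F : Subgroup G} (hE : EAb p E) (hF : EAb p F)
    (hc : ∀ x ∈ E, ∀ y ∈ F, x * y = y * x) (hi : ∀ x, x ∈ E → x ∈ F → x = 1) :
    ∃ K : Subgroup G, EAb p K ∧ Nat.card K = Nat.card E * Nat.card F := by
  let φ : E × F →* G := MonoidHom.noncommCoprod E.subtype F.subtype fun x y => hc x.1 x.2 y.1 y.2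
  have hφ : ∀ x : E × F, φ x = (x.1 : G) * (x.2 : G) := fun x => rfl
  have hinj : Function.Injective φ := by
    rw [injective_iff_map_eq_one]
    rintro ⟨x, y⟩ hxy
    rw [hφ] at hxy
    have h1 : (x : G) = (y : G)⁻¹ := eq_inv_of_mul_eq_one_left hxy
    have h2 : (x : G) = 1 := hi x.1 x.2 (by rw [h1]; exact F.inv_mem y.2)
    have h3 : (y : G) = 1 := by
      rw [h2] at h1
      exact (inv_eq_one.1 h1.symm)
    ext
    · exact h2
    · exact h3
  refine ⟨φ.range, ⟨?_, ?_⟩, ?_⟩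
  · rintro _ ⟨⟨a, b⟩, rfl⟩ _ ⟨⟨c, d⟩, rfl⟩
    rw [← map_mul, ← map_mul]
    congr 1
    ext
    · exact hE.1 a.1 a.2 c.1 c.2
    · exact hF.1 b.1 b.2 d.1 d.2
  · rintro _ ⟨⟨a, b⟩, rfl⟩
    rw [← map_pow]
    have : (a, b) ^ p = 1 := by
      ext
      · exact hE.2 a.1 a.2
      · exact hF.2 b.1 b.2
    rw [this, map_one]
  · rw [← Nat.card_prod]
    exact (Nat.card_congr (MonoidHom.ofInjective hinj).toEquiv).symm

theorem BFI_cj {G : Type} [Group G] [Finite G] {p : ℕ} (g : G) {E : Subgroup G} (hE : EAb p E) :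
    EAb p (Cj g E) ∧ Nat.card (Cj g E) = Nat.card E := by
  refine ⟨⟨?_, ?_⟩, ?_⟩
  · intro x hx y hy
    rw [mem_Cj] at hx hy
    have h := hE.1 _ hx _ hy
    have h1 : x * y = g * ((g⁻¹ * x * g) * (g⁻¹ * y * g)) * g⁻¹ := by group
    have h2 : y * x = g * ((g⁻¹ * y * g) * (g⁻¹ * x * g)) * g⁻¹ := by group
    rw [h1, h2, h]
  · intro x hx
    rw [mem_Cj] at hx
    have h := hE.2 _ hx
    have h1 : (g⁻¹ * x * g) ^ p = g⁻¹ * x ^ p * g := by
      have := conj_pow (i := p) (a := g⁻¹) (b := x)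
      simpa using this
    rw [h1] at h
    have h2 : x ^ p = g * (g⁻¹ * x ^ p * g) * g⁻¹ := by group
    rw [h2, h]
    group
  · unfold Cj
    exact (Nat.card_congr (E.equivMapOfInjective _ (MulAut.conj g).injective).toEquiv).symm

theorem BFI (hBY2 : BY2_stmt) (hBY3 : BY3_stmt) (hB3 : B3_stmt) (hB4 : B4_stmt) : BFI_stmt := by
  intro G _ _ p hp hR N S Y D hBS
  obtain ⟨hDY, hcD, hOD, hpD, hpY, hSD⟩ := hBY2 G p hp N S Y D hBS
  by_cases h1 : RkS p 1 D
  · exact hB3 G p hp hR N S Y D hBS h1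
  unfold RkS at h1
  push Not at h1
  obtain ⟨E, hED, hE, hcE⟩ := h1
  have hE2 : p ^ 2 ≤ Nat.card E := BFI_card hp hE (not_le.2 hcE)
  have hcomm : ∀ x ∈ D, ∀ y ∈ Y, x * y = y * x := by
    intro x hx y hy
    rw [hBS.ed, Subgroup.mem_centralizer_iff] at hx
    exact (hx y hy).symm
  have h2 : RkS p 1 Y := by
    intro F hFY hF
    by_contra h3
    have hF2 : p ^ 2 ≤ Nat.card F := BFI_card hp hF h3
    obtain ⟨K, hK, hcK⟩ := BFI_prod hE hF (fun x hx y hy => hcomm x (hED hx) y (hFY hy))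
      (fun x hx hy => by
        have : x ∈ D ⊓ Y := ⟨hED hx, hFY hy⟩
        rw [hDY] at this
        exact Subgroup.mem_bot.1 this)
    have h4 := hR K hK
    rw [hcK] at h4
    have h5 : p ^ 4 ≤ p ^ 3 := by
      calc p ^ 4 = p ^ 2 * p ^ 2 := by ring
        _ ≤ Nat.card E * Nat.card F := Nat.mul_le_mul hE2 hF2
        _ ≤ p ^ 3 := h4
    have h6 := (Nat.pow_le_pow_iff_right hp.one_lt).1 h5
    omega
  have hS : ∀ e : G, Cj e S = S := by
    intro e
    by_contra h3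
    have h4 := (hBY3 G p hp N S Y D hBS hDY hcD e h3).1
    have h5 : Cj e⁻¹ E ≤ Y := by
      intro x hx
      rw [mem_Cj, inv_inv] at hx
      have h6 := h4 (hED hx)
      rw [mem_Cj] at h6
      have h7 : e⁻¹ * (e * x * e⁻¹) * e = x := by group
      rwa [h7] at h6
    have h6 := h2 _ h5 (BFI_cj e⁻¹ hE).1
    rw [(BFI_cj e⁻¹ hE).2] at h6
    omega
  have hN : S.Normal := ⟨fun n hn g => by
    have h3 : g * n * g⁻¹ ∈ Cj g S := by
      rw [mem_Cj]
      have h4 : g⁻¹ * (g * n * g⁻¹) * g = n := by group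
      rwa [h4]
    rwa [hS g] at h3⟩
  exact hB4 G p hp hR N S Y D hBS hN h2

end RK
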